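import Pool.Agent.Lib.MP_b5021c_nt.IfaceK1

/-!
# MP_b5021c_nt, chapter K, module COE (helper22): the coefficients of a multi-affine polynomial
without zeros in the open polydisc are bounded by the constant term.
-/

set_option autoImplicit false

namespace Pool.Agent.MP_b5021c_nt.H22

open Polynomial Finset

/-- a product of numbers of modulus at least `1` has modulus at least `1` -/
theorem one_le_prod (m : Multiset ℂ) (h : ∀ z ∈ m, 1 ≤ ‖z‖) : 1 ≤ ‖m.prod‖ := by
  induction m using Multiset.induction_on with
  | empty => simp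
  | cons a m ih =>
    rw [Multiset.prod_cons, norm_mul]
    have h1 := h a (Multiset.mem_cons_self a m)
    have h2 := ih fun z hz => h z (Multiset.mem_cons_of_mem hz)
    nlinarith

/-- leading and constant coefficient of a polynomial without zeros in the open unit disc -/
theorem lead_le (P : ℂ[X]) (h : ∀ s : ℂ, ‖s‖ < 1 → P.eval s ≠ 0) :
    ‖P.leadingCoeff‖ ≤ ‖P.coeff 0‖ := by
  have h0 : P ≠ 0 := by
    rintro rfl
    exact h 0 (by simp) (by simp)
  rw [(IsAlgClosed.splits P).coeff_zero_eq_leadingCoeff_mul_prod_roots, norm_mul, norm_mul,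
    norm_pow, norm_neg, norm_one, one_pow, one_mul]
  have h1 : 1 ≤ ‖P.roots.prod‖ := by
    apply one_le_prod
    intro z hz
    by_contra hlt
    rw [not_le] at hlt
    exact h z hlt ((mem_roots h0).1 hz)
  have h2 : 0 ≤ ‖P.leadingCoeff‖ := norm_nonneg _
  nlinarith

/-- COE -/
theorem coe : CoeS := by
  intro ι _ _ p hp S
  by_cases hS : p S = 0
  · rw [hS, norm_zero]
    exact norm_nonneg _
  set P : ℂ[X] := ∑ T ∈ S.powerset, C (p T) * X ^ T.card with hP
  have hev : ∀ s : ℂ, P.eval s =
      ∑ T : Finset ι, p T * ∏ i ∈ T, (if i ∈ S then s else 0) := by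
    intro s
    rw [hP, eval_finset_sum]
    have hsub : S.powerset ⊆ (univ : Finset (Finset ι)) := subset_univ _
    rw [← sum_subset hsub]
    · refine sum_congr rfl fun T hT => ?_
      rw [mem_powerset] at hT
      rw [eval_mul, eval_C, eval_pow, eval_X]
      congr 1
      rw [prod_congr rfl (g := fun _ => s), prod_const]
      intro i hi
      rw [if_pos (hT hi)]
    · intro T _ hT
      rw [mem_powerset, not_subset] at hT
      obtain ⟨i, hi, hiS⟩ := hT
      rw [prod_eq_zero hi, mul_zero]
      rw [if_neg hiS]
  have hne : ∀ s : ℂ, ‖s‖ < 1 → P.eval s ≠ 0 := by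
    intro s hs
    rw [hev s]
    apply hp
    intro i
    split_ifs
    · exact hs
    · rw [norm_zero]
      exact one_pos
  have hc : ∀ n, P.coeff n = ∑ T ∈ S.powerset, if T.card = n then p T else 0 := by
    intro n
    rw [hP, finset_sum_coeff]
    refine sum_congr rfl fun T _ => ?_
    rw [coeff_C_mul, coeff_X_pow]
    by_cases h : T.card = n
    · rw [if_pos h, if_pos h.symm, mul_one]
    · rw [if_neg h, if_neg (Ne.symm h), mul_zero]
  have hcS : P.coeff S.card = p S := by
    rw [hc, sum_eq_single_of_mem S (mem_powerset_self S)]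
    · rw [if_pos rfl]
    · intro T hT hTS
      rw [if_neg]
      intro hcard
      exact hTS (eq_of_subset_of_card_le (mem_powerset.1 hT) hcard.ge)
  have hc0 : P.coeff 0 = p ∅ := by
    rw [hc, sum_eq_single_of_mem ∅ (empty_mem_powerset S)]
    · rw [if_pos card_empty]
    · intro T _ hT
      rw [if_neg]
      rw [card_eq_zero]
      exact hT
  have hdeg : P.natDegree = S.card := by
    apply le_antisymm
    · rw [natDegree_le_iff_coeff_eq_zero]
      intro n hn
      rw [hc]
      refine sum_eq_zero fun T hT => ?_
      rw [if_neg]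
      have := card_le_card (mem_powerset.1 hT)
      omega
    · apply le_natDegree_of_ne_zero
      rw [hcS]
      exact hS
  have hl := lead_le P hne
  rw [leadingCoeff, hdeg, hcS, hc0] at hl
  exact hl

end Pool.Agent.MP_b5021c_nt.H22
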